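import Pool.Agent.Helper27.BI.S5.Geo5
import Pool.Agent.Helper27.BI.GBasic

/-!
# Project BI, stage 5, module IO1 (the map which retracts the second finger and fills in the second hole)
-/

set_option autoImplicit false
set_option linter.unusedSectionVars false

open scoped Manifold ContDiff Topology ComplexConjugate
open Set Filter Pool.Agent.Helper65.Barb Pool.Agent.Helper18.BI
open Pool.Agent.Helper70.BI (I4 LD ld_iff ld_comp ld_congr contDiff_dfam contDiff_dfam_inv)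
open Pool.Agent.Helper34.BI (rade)
open Pool.Agent.Helper27.BI (e1 imp_image imp_off)
open Pool.Agent.Helper27.H

namespace Pool.Agent.Helper27.S5

namespace IO1

/-- the closed set removed: the two walls and the second arc -/
def BB (δ κ β c a b : ℝ) : Set R4 :=
  (wallS δ ∪ wall2 δ κ β) ∪ {p | p.1 ∈ Icc a b ∧ p.2 = z2 c β p.1}

theorem continuous_step' : Continuous step := by
  unfold Pool.Agent.Helper65.Barb.step
  exact Real.smoothTransition.continuous

theorem continuous_lam (c : ℝ) : Continuous (lam c) := by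
  unfold lam
  have h := continuous_step'
  exact continuous_const.sub (continuous_const.mul
    ((h.comp (by fun_prop : Continuous fun s : ℝ => (s - 7 / 20) / (2 / 25))).mul
      (h.comp (by fun_prop : Continuous fun s : ℝ => (13 / 20 - s) / (2 / 25)))))

theorem continuous_z2 (c β : ℝ) : Continuous (z2 c β) := by
  unfold z2
  exact contDiff_z0.continuous.add
    (((continuous_lam c).mul continuous_const).smul continuous_const)

theorem isClosed_BB (δ κ β c a b : ℝ) : IsClosed (BB δ κ β c a b) := by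
  refine ((Geo.isClosed_wallS δ).union (Geo.isClosed_wall2 δ κ β)).union ?_
  have h : Continuous fun p : R4 => z2 c β p.1 := (continuous_z2 c β).comp continuous_fst
  exact (isClosed_Icc.preimage continuous_fst).inter (isClosed_eq continuous_snd h)

section
variable {G T T' : R4 → R4} {δ δ' κ β c : ℝ} {D D' : ArcD} {H : DFam 𝓘(ℝ, R4) R4} {a b : ℝ}

theorem hio_a {p : R4} (h : rsq 1 (sgi κ β p) < 1 / 25 - 2 * δ') :
    hio H δ' κ β p = H.f (1, p) := by
  unfold hio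
  rw [if_pos h]

theorem hio_b {p : R4} (h : 1 / 25 - 2 * δ' ≤ rsq 1 (sgi κ β p)) :
    hio H δ' κ β p = H.f (1, rad2 δ' κ β (H.g (1, p))) := by
  unfold hio
  rw [if_neg (not_lt.2 h)]

variable (hS : Sys G T T' δ δ' κ β c D D' H a b)
include hS

theorem far {p : R4} (hp : p ∈ Reg δ' \ BB δ' κ β c a b) : 1 / 25 - δ' < rsq 1 p := by
  by_contra h
  push Not at h
  exact hp.2 (Or.inl (Or.inl ⟨hp.1.1, hp.1.2.1, hp.1.2.2.1, h⟩))

theorem dich {p : R4} (hp : p ∈ Reg δ' \ BB δ' κ β c a b) :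
    rsq 1 (sgi κ β p) < 1 / 25 - 3 * δ' ∨ 1 / 25 - δ' < rsq 1 (sgi κ β p) := by
  by_contra h
  push Not at h
  exact hp.2 (Or.inl (Or.inr ⟨hp.1.1, hp.1.2.1, h.1, h.2⟩))

theorem pos2 {p : R4} (hp : p ∈ Reg δ' \ BB δ' κ β c a b)
    (h3 : 1 / 25 - δ' < rsq 1 (sgi κ β p)) : 0 < rsq 1 (sgi κ β (H.g (1, p))) := by
  rw [Geo.sgi_pos_iff hS.par.k0]
  intro h
  have h1 : H.g (1, p) = ((H.g (1, p)).1, P2 β) := Prod.ext rfl h
  set s := (H.g (1, p)).1
  have h2 : p = (s, z2 c β s) := by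
    rw [← Geo.H_P2 hS.th hS.par s, ← h1, H.fg]
  have h4 : s ∈ Icc a b := by
    by_contra h5
    have h6 := Geo.H_P2_out hS.th hS.par hS.mc (Geo.hδ' hS.par) hS.ab h5
    rw [← h2] at h6
    exact absurd h6 (not_le.2 h3)
  exact hp.2 (Or.inr ⟨by rw [h2]; exact h4, by rw [h2]⟩)

/-- the images of the points near the second hole are in the region, off the first wall -/
theorem near_val {q : R4} (h0 : 0 ≤ q.1) (h1 : q.1 ≤ 1) (h : rsq 1 (sgi κ β q) ≤ 1 / 25) :
    H.f (1, q) ∈ Reg δ' ∧ 1 / 25 - δ' < rsq 1 (H.f (1, q)) := by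
  have d' := Geo.hδ' hS.par
  have hn := Geo.near_of hS.par h
  have hq := Geo.H_near_rsq hS.th hS.par hS.mc hn
  have e3 : (H.f (1, q)).1 = q.1 := by
    rw [Geo.H_near hS.th hS.par hn]
  exact ⟨⟨by rw [e3]; exact h0, by rw [e3]; exact h1, by linarith [hq.1, d'.1], hq.2⟩, hq.1⟩

theorem val {p : R4} (hp : p ∈ Reg δ' \ BB δ' κ β c a b) :
    hio H δ' κ β p ∈ Reg δ' ∧ 1 / 25 - δ' < rsq 1 (hio H δ' κ β p) := by
  have d' := Geo.hδ' hS.par
  have k0 := hS.par.k0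
  rcases dich hS hp with h | h
  · rw [hio_a (by linarith [d'.1])]
    exact near_val hS hp.1.1 hp.1.2.1 (by linarith [d'.1])
  · rw [hio_b (by linarith [d'.1])]
    rcases le_or_gt (1 / 25 - δ') (rsq 1 (sgi κ β (H.g (1, p)))) with h4 | h4
    · rw [Geo.rad2_fix d' k0 β h4, H.fg]
      exact ⟨hp.1, far hS hp⟩
    · have h6 := Geo.rad2_le d' k0 β (pos2 hS hp h) h4.le
      have hl := Geo.H_reg_g hS.th (t := 1) hp.1.1 hp.1.2.1 hp.1.2.2.2
      exact near_val hS (q := rad2 δ' κ β (H.g (1, p))) hl.1 hl.2.1 (by linarith [d'.1])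

theorem maps : MapsTo (hio H δ' κ β) (Reg δ' \ BB δ' κ β c a b) (Reg δ') :=
  fun _ hp => (val hS hp).1

theorem ld {p : R4} (hp : p ∈ Reg δ' \ BB δ' κ β c a b) : LD (hio H δ' κ β) p := by
  have d' := Geo.hδ' hS.par
  have hf : ContDiff ℝ ∞ (fun q : R4 => H.f (1, q)) :=
    (contDiff_dfam H).comp (contDiff_prodMk_right (1 : ℝ))
  have hg : ContDiff ℝ ∞ (fun q : R4 => H.g (1, q)) :=
    (contDiff_dfam_inv H).comp (contDiff_prodMk_right (1 : ℝ))
  have lf : ∀ x : R4, LD (fun q : R4 => H.f (1, q)) x := fun x =>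
    Geo.ld_of_inv hf hg (fun x => H.gf 1 x) (fun x => H.fg 1 x) x
  have lg : ∀ x : R4, LD (fun q : R4 => H.g (1, q)) x := fun x =>
    Geo.ld_of_inv hg hf (fun x => H.fg 1 x) (fun x => H.gf 1 x) x
  rcases dich hS hp with h | h
  · refine ld_congr ?_ (lf p)
    have h1 : ∀ᶠ q : R4 in 𝓝 p, rsq 1 (sgi κ β q) < 1 / 25 - 3 * δ' :=
      (Geo.continuous_rsq_sgi κ β).continuousAt.eventually (Iio_mem_nhds h)
    filter_upwards [h1] with q hq
    rw [hio_a (by linarith [d'.1])]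
  · have l2 : LD (rad2 δ' κ β ∘ fun q : R4 => H.g (1, q)) p :=
      ld_comp (F := rad2 δ' κ β) (m := fun q : R4 => H.g (1, q)) (lg p)
        ((Geo.rad2_emb d' hS.par.k0 β).1 _ (pos2 hS hp h))
    have l3 : LD ((fun q : R4 => H.f (1, q)) ∘ (rad2 δ' κ β ∘ fun q : R4 => H.g (1, q))) p :=
      ld_comp (F := fun q : R4 => H.f (1, q)) (m := rad2 δ' κ β ∘ fun q : R4 => H.g (1, q)) l2
        (lf _)
    refine ld_congr ?_ l3
    have h1 : ∀ᶠ q : R4 in 𝓝 p, 1 / 25 - δ' < rsq 1 (sgi κ β q) :=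
      (Geo.continuous_rsq_sgi κ β).continuousAt.eventually (Ioi_mem_nhds h)
    filter_upwards [h1] with q hq
    rw [hio_b (by linarith [d'.1])]
    rfl

theorem inj : InjOn (hio H δ' κ β) (Reg δ' \ BB δ' κ β c a b) := by
  have d' := Geo.hδ' hS.par
  have k0 := hS.par.k0
  have fi : ∀ x y : R4, H.f (1, x) = H.f (1, y) → x = y := by
    intro x y h
    rw [← H.gf 1 x, h, H.gf]
  have key : ∀ p ∈ Reg δ' \ BB δ' κ β c a b, ∀ q ∈ Reg δ' \ BB δ' κ β c a b,
      rsq 1 (sgi κ β p) < 1 / 25 - 3 * δ' → 1 / 25 - δ' < rsq 1 (sgi κ β q) →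
      hio H δ' κ β p ≠ hio H δ' κ β q := by
    intro p _ q hq h1 h2 h
    rw [hio_a (by linarith [d'.1]), hio_b (by linarith [d'.1])] at h
    have h3 := fi _ _ h
    have h4 := Geo.rad2_low d' k0 β (pos2 hS hq h2)
    rw [← h3] at h4
    exact absurd h4 (not_le.2 h1)
  intro p hp q hq h
  rcases dich hS hp with h1 | h1 <;> rcases dich hS hq with h2 | h2
  · rw [hio_a (by linarith [d'.1]), hio_a (by linarith [d'.1])] at h
    exact fi _ _ h
  · exact absurd h (key p hp q hq h1 h2)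
  · exact absurd h.symm (key q hq p hp h2 h1)
  · rw [hio_b (by linarith [d'.1]), hio_b (by linarith [d'.1])] at h
    have h3 := fi _ _ h
    have h4 := (Geo.rad2_emb d' k0 β).2 (pos2 hS hp h1) (pos2 hS hq h2) h3
    rw [← H.fg 1 p, h4, H.fg]

theorem front {p : R4} (hp : p ∈ Reg δ' \ BB δ' κ β c a b) :
    ∀ᶠ q in 𝓝 p, q ∉ Reg δ' → hio H δ' κ β q = q := by
  have d' := Geo.hδ' hS.par
  have h1 : ∀ᶠ q : R4 in 𝓝 p, 1 / 25 - δ' < rsq 1 q :=
    Geo.continuous_rsq1.continuousAt.eventually (Ioi_mem_nhds (far hS hp))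
  have hsupp : ∀ q : R4, 1 / 25 - δ' < rsq 1 q → q ∉ Reg δ' →
      H.f (1, q) = q ∧ H.g (1, q) = q := by
    intro q hq1 hqR
    have h4 : q.1 ≤ 1 / 20 ∨ 19 / 20 ≤ q.1 ∨ 49 / 100 ≤ rsq 1 q := by
      by_contra h
      push Not at h
      exact hqR ⟨by linarith [h.1], by linarith [h.2.1], by linarith [d'.1], h.2.2.le⟩
    exact ⟨hS.th.supp 1 q h4, Geo.H_supp_g hS.th (t := 1) h4⟩
  rcases dich hS hp with h | h
  · have h2 : ∀ᶠ q : R4 in 𝓝 p, rsq 1 (sgi κ β q) < 1 / 25 - 3 * δ' :=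
      (Geo.continuous_rsq_sgi κ β).continuousAt.eventually (Iio_mem_nhds h)
    filter_upwards [h1, h2] with q hq1 hq2 hqR
    rw [hio_a (by linarith [d'.1])]
    exact (hsupp q hq1 hqR).1
  · have h2 : ∀ᶠ q : R4 in 𝓝 p, 1 / 25 - δ' < rsq 1 (sgi κ β q) :=
      (Geo.continuous_rsq_sgi κ β).continuousAt.eventually (Ioi_mem_nhds h)
    filter_upwards [h1, h2] with q hq1 hq2 hqR
    rw [hio_b (by linarith [d'.1]), (hsupp q hq1 hqR).2, Geo.rad2_fix d' hS.par.k0 β hq2.le]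
    exact (hsupp q hq1 hqR).1

theorem injG : InjOn G (Reg δ') := hS.emb.2.mono Geo.Reg_K3

theorem good {p : R4} (hp : p ∈ Reg δ') (h : G p ∈ U2 G δ' κ β \ A2 G H β a b) :
    p ∈ Reg δ' \ BB δ' κ β c a b := by
  refine ⟨hp, ?_⟩
  rintro (h1 | h1)
  · exact h.1 ⟨p, h1, rfl⟩
  · refine h.2 ⟨(p.1, P2 β), ⟨rfl, h1.1.1, h1.1.2⟩, ?_⟩
    show G (H.f (1, (p.1, P2 β))) = G p
    rw [Geo.H_P2 hS.th hS.par, ← h1.2]

theorem sub : U2 G δ' κ β \ A2 G H β a b ⊆ (G '' (Reg δ' ∩ BB δ' κ β c a b))ᶜ := by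
  rintro y hy ⟨p, ⟨hp, hB⟩, rfl⟩
  exact (good hS hp hy).2 hB

/-- points of the base arc are in the region -/
theorem arc_pt {y : R4} (hy : y ∈ D'.A) : ∃ s : ℝ, y = G (s, z0 s) ∧
    ((s, z0 s) : R4) ∈ Reg δ' := by
  obtain ⟨p, ⟨h1, h2, h3⟩, rfl⟩ := hy
  refine ⟨p.1, ?_, ?_⟩
  · rw [hS.hat'.J]
    show G (p.1, z0 p.1 + p.2) = _
    rw [h3, add_zero]
  · have b1 : 1 / 25 - δ' ≤ bfin p.1 ^ 2 := by
      rcases eq_or_lt_of_le h1 with h | h
      · rw [← h, hS.hat'.b₀]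
      · rcases eq_or_lt_of_le h2 with h' | h'
        · rw [h', hS.hat'.b₁]
        · exact (hS.hat'.b p.1 ⟨h, h'⟩).le
    have b2 := bfin_le p.1
    have b3 := bfin_nonneg p.1
    have r := rsq1_z0 p.1
    have d' := (Geo.hδ' hS.par).1
    refine ⟨by linarith [hS.hat'.s₀.1], by linarith [hS.hat'.s₁.2], ?_, ?_⟩
    · rw [r]; linarith
    · rw [r]; nlinarith

/-- near the base arc the model map is the identity -/
theorem near_id (s : ℝ) : ∀ᶠ q in 𝓝 ((s, z0 s) : R4), hio H δ' κ β q = q := by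
  have d' := Geo.hδ' hS.par
  have k0 := hS.par.k0
  have k1 := hS.par.k1
  have hg : Continuous (fun q : R4 => H.g (1, q)) :=
    ((contDiff_dfam_inv H).comp (contDiff_prodMk_right (1 : ℝ))).continuous
  have h1 : 1 < rsq 1 (sgi κ β ((s, z0 s) : R4)) := by
    rw [Geo.rsq_sgi k0]
    have e2 : nsq (((s, z0 s) : R4).2 - P2 β) = bfin s ^ 2 + β ^ 2 := by
      show nsq (z0 s - P2 β) = _
      rw [Geo.z0_def, Geo.nsq_def]
      unfold P2
      simp
    rw [e2, lt_div_iff₀ (by positivity), one_mul]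
    nlinarith [sq_nonneg (bfin s)]
  have h2 : 1 < rsq 1 (sgi κ β (H.g (1, ((s, z0 s) : R4)))) := by
    rw [Geo.H_g_line hS.th]
    exact Geo.sgi_e1 hS.par s
  have h3 : ∀ᶠ q : R4 in 𝓝 ((s, z0 s) : R4), 1 < rsq 1 (sgi κ β q) :=
    (Geo.continuous_rsq_sgi κ β).continuousAt.eventually (Ioi_mem_nhds h1)
  have h4 : ∀ᶠ q : R4 in 𝓝 ((s, z0 s) : R4), 1 < rsq 1 (sgi κ β (H.g (1, q))) :=
    ((Geo.continuous_rsq_sgi κ β).comp hg).continuousAt.eventually (Ioi_mem_nhds h2)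
  filter_upwards [h3, h4] with q hq3 hq4
  rw [hio_b (by linarith [d'.1]), Geo.rad2_fix d' k0 β (by linarith [d'.1]), H.fg]

end

end IO1

theorem m_IO1 (hGH : StGH) : StIO1 := by
  intro G T T' δ δ' κ β c D D' H a b hS
  have hG : EmbOn I4 G (Reg δ') :=
    Pool.Agent.Helper70.BI.EmbOn.mono' hS.emb Geo.Reg_K3
  have hGi := IO1.injG hS
  have h := hGH G (hio H δ' κ β) (Reg δ') (IO1.BB δ' κ β c a b)
    (Geo.isCompact_Reg δ') (IO1.isClosed_BB δ' κ β c a b) hG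
    (fun p hp => IO1.ld hS hp) (IO1.inj hS) (IO1.maps hS) (fun p hp => IO1.front hS hp)
  refine ⟨Pool.Agent.Helper70.BI.EmbOn.mono' h (IO1.sub hS), ?_, ?_⟩
  · intro x hx
    rw [hS.hat'.U]
    by_cases hxR : x ∈ G '' Reg δ'
    · obtain ⟨p, hp, rfl⟩ := hxR
      have hv := IO1.val hS (IO1.good hS hp hx)
      unfold io
      rw [imp_image hGi hp]
      rintro ⟨w, hw, hwe⟩
      have h1 := hGi (Geo.wall_Reg hS.par hw) hv.1 hwe
      rw [← h1] at hv
      exact absurd hw.2.2.2 (not_le.2 hv.2)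
    · unfold io
      rw [imp_off hxR]
      rintro ⟨w, hw, hwe⟩
      exact hx.1 ⟨w, Or.inl hw, hwe⟩
  · intro x hx _
    obtain ⟨s, hs, hR⟩ := IO1.arc_pt hS hx
    obtain ⟨N, hN1, hN2, hN3⟩ := eventually_nhds_iff.1 (IO1.near_id hS s)
    have hcomp : IsCompact (Reg δ' \ N) := (Geo.isCompact_Reg δ').diff hN2
    have hcont : ContinuousOn G (Reg δ' \ N) := fun p hp =>
      ((hG.1 p hp.1).contMDiffAt.continuousAt).continuousWithinAt
    have hcl : IsClosed (G '' (Reg δ' \ N)) := (hcomp.image_of_continuousOn hcont).isClosed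
    have hxn : x ∈ (G '' (Reg δ' \ N))ᶜ := by
      rintro ⟨q, hq, hqx⟩
      have h1 := hGi hq.1 hR (hqx.trans hs)
      rw [h1] at hq
      exact hq.2 hN3
    filter_upwards [hcl.isOpen_compl.mem_nhds hxn] with y hy
    by_cases hyR : y ∈ G '' Reg δ'
    · obtain ⟨q, hq, rfl⟩ := hyR
      unfold io
      rw [imp_image hGi hq]
      have hqN : q ∈ N := by
        by_contra h1
        exact hy ⟨q, ⟨hq, h1⟩, rfl⟩
      rw [hN1 q hqN]
    · unfold io
      exact imp_off hyR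

end Pool.Agent.Helper27.S5
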